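import Pool.Agent.helper44.FirstFit.Core

set_option autoImplicit false

namespace Pool.Agent.helper44.FirstFit

open Nat

/-- There is an `R8`-free poset that is a union of `w` chains, with a First-Fit colouring
that uses exactly the colours `0, …, k-1`. -/
def Good (w k : ℕ) : Prop :=
  ∃ (P : Type) (_ : Finite P) (_ : PartialOrder P) (f : P → ℕ) (ch : P → Fin w),
    (∀ x, f x < k) ∧ (∀ c, c < k → ∃ x, f x = c) ∧
    (∀ x y, f x = f y → x ≤ y ∨ y ≤ x) ∧
    (∀ x : P, ∀ c : ℕ, c < f x → ∃ y : P, f y = c ∧ ¬ x ≤ y ∧ ¬ y ≤ x) ∧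
    (∀ x y, ch x = ch y → x ≤ y ∨ y ≤ x) ∧ IsEmpty (R8 ↪o P)

theorem good_one : Good 1 1 := by
  refine ⟨PUnit, inferInstance, inferInstance, fun _ => 0, fun _ => 0, fun _ => by simp,
    fun c hc => ⟨PUnit.unit, (Nat.lt_one_iff.1 hc).symm⟩, fun x y _ => Or.inl le_rfl, fun x c hc => by simp at hc,
    fun x y _ => Or.inl le_rfl, ⟨fun e => ?_⟩⟩
  have h : (⟨0⟩ : R8) = ⟨1⟩ := e.injective rfl
  simp at h

theorem good_succ (w k : ℕ) (h : Good w k) : Good (w + 1) ((w + 2) * k) := by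
  obtain ⟨P, hP, hord, f, ch, hfk, hs, hc, hsup, hch, hQ⟩ := h
  exact ⟨Node f w k, inferInstance, inferInstance, Node.col, Node.chain ch, Node.col_lt hfk,
    Node.exists_col hfk hs, Node.class_chain hfk hc, Node.support hfk hs hsup,
    Node.chain_chain ch hch, Node.no_embed hQ⟩

theorem good_factorial (w : ℕ) : ∃ k, 2 * k = (w + 2)! ∧ Good (w + 1) k := by
  induction w with
  | zero => exact ⟨1, rfl, good_one⟩
  | succ w ih =>
    obtain ⟨k, h1, h2⟩ := ih
    refine ⟨(w + 3) * k, ?_, good_succ _ _ h2⟩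
    rw [Nat.factorial_succ (w + 2), ← h1]
    ring

theorem card_le_of_chains {P : Type} [PartialOrder P] {w : ℕ} (ch : P → Fin w)
    (hch : ∀ x y, ch x = ch y → x ≤ y ∨ y ≤ x) (s : Finset P)
    (hs : IsAntichain (· ≤ ·) (s : Set P)) : s.card ≤ w := by
  have h := Finset.card_le_card_of_injOn (s := s) (t := (Finset.univ : Finset (Fin w))) ch
    (fun _ _ => Finset.mem_coe.2 (Finset.mem_univ _)) ?_
  · simpa using h
  · intro x hx y hy hxy
    by_contra hne
    rcases hch x y hxy with h | h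
    · exact hs hx hy hne h
    · exact hs hy hx (Ne.symm hne) h

theorem main :
    ∃ (Q : Type) (_ : Fintype Q) (_ : PartialOrder Q),
      (∃ s : Finset Q, IsAntichain (· ≤ ·) (s : Set Q) ∧ s.card = 2) ∧
      (∀ s : Finset Q, IsAntichain (· ≤ ·) (s : Set Q) → s.card ≤ 2) ∧
      ∀ C : ℕ, ∃ w : ℕ, ∃ (P : Type) (_ : Fintype P) (_ : PartialOrder P),
        (∀ s : Finset P, IsAntichain (· ≤ ·) (s : Set P) → s.card ≤ w) ∧
        IsEmpty (Q ↪o P) ∧
        ∃ (ord : P → ℕ) (f : P → ℕ),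
          Function.Injective ord ∧
          (∀ x y : P, ord y < ord x → f y = f x → (x ≤ y ∨ y ≤ x)) ∧
          (∀ x : P, ∀ c : ℕ, c < f x →
            ∃ y : P, ord y < ord x ∧ f y = c ∧ ¬ x ≤ y ∧ ¬ y ≤ x) ∧
          ∃ x : P, C ^ w ≤ f x := by
  classical
  refine ⟨R8, inferInstance, inferInstance, ?_, ?_, ?_⟩
  · refine ⟨{⟨0⟩, ⟨1⟩}, ?_, ?_⟩
    · intro a ha b hb hab h
      simp only [Finset.coe_insert, Finset.coe_singleton, Set.mem_insert_iff,
        Set.mem_singleton_iff] at ha hb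
      rcases ha with rfl | rfl <;> rcases hb with rfl | rfl <;> simp [R8.le_iff] at h hab
    · rw [Finset.card_pair]
      intro h
      simp at h
  · intro s hs
    refine card_le_of_chains (w := 2) (fun q => ⟨q.val.val % 2, Nat.mod_lt _ (by omega)⟩) ?_ s hs
    intro x y h
    simp only [Fin.mk.injEq] at h
    simp only [R8.le_iff, Fin.ext_iff]
    omega
  · intro C
    obtain ⟨n0, hn⟩ := Filter.eventually_atTop.1
      (FloorSemiring.eventually_mul_pow_lt_factorial_sub (1 : ℝ) (C : ℝ) 1)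
    obtain ⟨k, hk, P, hP, hord, f, ch, hfk, hsurj, hc, hsup, hch, hQ⟩ := good_factorial n0
    have hlt : C ^ (n0 + 1) < k := by
      have h1 := hn (n0 + 1) (by omega)
      rw [Nat.add_sub_cancel, one_mul] at h1
      have h1 : C ^ (n0 + 1) < n0 ! := by exact_mod_cast h1
      have h2 : (n0 + 2)! = (n0 + 2) * ((n0 + 1) * n0 !) := by
        rw [Nat.factorial_succ (n0 + 1), Nat.factorial_succ n0]
      have h3 : 2 * n0 ! ≤ (n0 + 2)! := by
        rw [h2, ← mul_assoc]
        exact Nat.mul_le_mul_right _ (by nlinarith)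
      omega
    let _ : Fintype P := Fintype.ofFinite P
    let e := Fintype.equivFin P
    let N := Fintype.card P
    refine ⟨n0 + 1, P, inferInstance, hord, fun s hs => card_le_of_chains ch hch s hs, hQ,
      fun x => f x * N + (e x : ℕ), f, ?_, ?_, ?_, ?_⟩
    · intro x y hxy
      obtain ⟨_, h2⟩ := Node.divmod_unique (e x).2 (e y).2 hxy
      exact e.injective (Fin.ext h2)
    · intro x y _ h
      exact hc x y h.symm
    · intro x c hcx
      obtain ⟨y, hy, h1, h2⟩ := hsup x c hcx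
      refine ⟨y, ?_, hy, h1, h2⟩
      have h3 : (c + 1) * N ≤ f x * N := Nat.mul_le_mul_right N hcx
      have h4 : (c + 1) * N = c * N + N := by ring
      have h5 : (e y : ℕ) < N := (e y).2
      show f y * N + (e y : ℕ) < f x * N + (e x : ℕ)
      rw [hy]
      omega
    · obtain ⟨x, hx⟩ := hsurj (k - 1) (by omega)
      exact ⟨x, by omega⟩

end Pool.Agent.helper44.FirstFit
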