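import Mathlib

/-!
# A superexponential lower bound for First-Fit on posets avoiding a width-2 poset

`R8` is the poset on `{0,…,7}` with `i < j` iff `j ≥ i + 2`.  We build, by induction on `w`,
`R8`-free posets of width at most `w` with a First-Fit colouring that uses `(w+1)!/2` colours.
-/

set_option autoImplicit false

namespace Pool.Agent.helper44.FirstFit

/-- The underlying type of the forbidden poset. -/
structure R8 where
  val : Fin 8

/-- `i ≤ j` iff `i = j` or `i + 2 ≤ j`. -/
instance : PartialOrder R8 where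
  le a b := a.val = b.val ∨ a.val.val + 2 ≤ b.val.val
  le_refl a := Or.inl rfl
  le_trans a b c h1 h2 := by
    rcases h1 with h1 | h1 <;> rcases h2 with h2 | h2
    · exact Or.inl (h1.trans h2)
    · right; rw [h1]; exact h2
    · right; rw [← h2]; exact h1
    · right; omega
  le_antisymm a b h1 h2 := by
    cases a; cases b
    simp only [R8.mk.injEq]
    rcases h1 with h1 | h1 <;> rcases h2 with h2 | h2
    · exact h1
    · exact h1
    · exact h2.symm
    · exfalso; simp only at h1 h2; omega

theorem R8.le_iff (a b : R8) : a ≤ b ↔ a.val = b.val ∨ a.val.val + 2 ≤ b.val.val := Iff.rfl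

instance : Fintype R8 :=
  Fintype.ofEquiv (Fin 8) ⟨fun i => ⟨i⟩, fun a => a.val, fun _ => rfl, fun _ => rfl⟩

section node

variable {P : Type} [PartialOrder P] (f : P → ℕ) (w k : ℕ)

/-- The elements of the next poset. -/
inductive Node : Type
  | E (b s : ℕ) (x : P) (hb : b ≤ w) (hs : s < k) (hx : f x < s) : Node
  | V (b l : ℕ) (hb : b ≤ w) (hl : l < k) : Node
  | D (x : P) : Node
  | K (b i : ℕ) (hb : b < w) (hi : i < k) : Node

variable {f w k}

namespace Node

/-- The order relation. -/
def le : Node f w k → Node f w k → Prop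
  | E b s x _ _ _, E b' s' x' _ _ _ => b < b' ∨ (b = b' ∧ s' < s) ∨ (b = b' ∧ s = s' ∧ x ≤ x')
  | E b s _ _ _ _, V b' l _ _ => b < b' ∨ (b = b' ∧ l < s)
  | E _ _ _ _ _ _, D _ => True
  | E _ _ _ _ _ _, K _ _ _ _ => True
  | V _ _ _ _, E _ _ _ _ _ _ => False
  | V b l _ _, V b' l' _ _ => b < b' ∨ (b = b' ∧ l' ≤ l)
  | V _ _ _ _, D _ => False
  | V b l _ _, K b' i _ _ => b < b' ∨ (b = b' ∧ i ≤ l)
  | D _, E _ _ _ _ _ _ => False
  | D _, V _ _ _ _ => False
  | D x, D y => x ≤ y
  | D _, K _ _ _ _ => True
  | K _ _ _ _, E _ _ _ _ _ _ => False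
  | K _ _ _ _, V _ _ _ _ => False
  | K _ _ _ _, D _ => False
  | K b i _ _, K b' i' _ _ => b = b' ∧ i' ≤ i

theorem le_refl' (a : Node f w k) : le a a := by
  cases a <;> simp [le]

theorem le_trans' (a b c : Node f w k) (h1 : le a b) (h2 : le b c) : le a c := by
  cases a <;> cases b <;> cases c <;> simp only [le] at h1 h2 ⊢ <;>
    first
      | trivial
      | exact h1.elim
      | exact h2.elim
      | omega
      | exact le_trans h1 h2
      | (rcases h1 with h1 | h1 | h1 <;> rcases h2 with h2 | h2 | h2 <;>
          first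
            | omega
            | exact Or.inr (Or.inr ⟨h1.1.trans h2.1, h1.2.1.trans h2.2.1, h1.2.2.trans h2.2.2⟩))

theorem le_antisymm' (a b : Node f w k) (h1 : le a b) (h2 : le b a) : a = b := by
  cases a <;> cases b <;> simp only [le] at h1 h2 ⊢
  · rcases h1 with h1 | h1 | h1 <;> rcases h2 with h2 | h2 | h2 <;>
      first
        | omega
        | (obtain ⟨rfl, rfl, h1⟩ := h1
           have := le_antisymm h1 h2.2.2
           subst this
           rfl)
  · simp only [V.injEq]; omega
  · rw [le_antisymm h1 h2]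
  · simp only [K.injEq]; omega

instance : PartialOrder (Node f w k) where
  le := le
  le_refl := le_refl'
  le_trans := le_trans'
  le_antisymm := le_antisymm'

theorem le_def (a b : Node f w k) : a ≤ b ↔ le a b := Iff.rfl

/-- The colour. -/
def col : Node f w k → ℕ
  | E b _ x _ _ _ => b * k + f x
  | V b l _ _ => b * k + l
  | D x => (w + 1) * k + f x
  | K b i _ _ => b * k + i

/-- An injection into a finite type. -/
def code : Node f w k → (Fin (w + 1) × Fin k × P) ⊕ (Fin (w + 1) × Fin k) ⊕ P ⊕ (Fin w × Fin k)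
  | E b s x hb hs _ => Sum.inl (⟨b, Nat.lt_succ_of_le hb⟩, ⟨s, hs⟩, x)
  | V b l hb hl => Sum.inr (Sum.inl (⟨b, Nat.lt_succ_of_le hb⟩, ⟨l, hl⟩))
  | D x => Sum.inr (Sum.inr (Sum.inl x))
  | K b i hb hi => Sum.inr (Sum.inr (Sum.inr (⟨b, hb⟩, ⟨i, hi⟩)))

theorem code_injective : Function.Injective (code : Node f w k → _) := by
  intro a b h
  cases a <;> cases b <;> simp [code] at h ⊢ <;> tauto

instance [Finite P] : Finite (Node f w k) := Finite.of_injective _ code_injective

theorem divmod_unique {k b l b' l' : ℕ} (hl : l < k) (hl' : l' < k)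
    (h : b * k + l = b' * k + l') : b = b' ∧ l = l' := by
  have h1 : (b * k + l) / k = b := by
    rw [mul_comm, Nat.mul_add_div (by omega), Nat.div_eq_of_lt hl, add_zero]
  have h2 : (b' * k + l') / k = b' := by
    rw [mul_comm, Nat.mul_add_div (by omega), Nat.div_eq_of_lt hl', add_zero]
  have hb : b = b' := by rw [← h1, ← h2, h]
  subst hb
  exact ⟨rfl, by omega⟩

theorem exists_divmod {k c b t : ℕ} (h : c < b * k + t) (ht : t ≤ k) :
    ∃ b' l', c = b' * k + l' ∧ l' < k ∧ (b' < b ∨ (b' = b ∧ l' < t)) := by
  have hk : 0 < k := by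
    rcases Nat.eq_zero_or_pos k with rfl | hk
    · simp only [nonpos_iff_eq_zero] at ht
      subst ht
      simp at h
    · exact hk
  refine ⟨c / k, c % k, by rw [mul_comm]; exact (Nat.div_add_mod c k).symm, Nat.mod_lt _ hk, ?_⟩
  rcases lt_trichotomy (c / k) b with h1 | h1 | h1
  · exact Or.inl h1
  · refine Or.inr ⟨h1, ?_⟩
    have := Nat.div_add_mod c k
    rw [h1, mul_comm] at this
    omega
  · exfalso
    have h2 := Nat.div_add_mod c k
    have h3 : (b + 1) * k ≤ (c / k) * k := Nat.mul_le_mul_right k h1
    have h4 : (b + 1) * k = b * k + k := by ring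
    have h5 : k * (c / k) = (c / k) * k := mul_comm _ _
    omega

variable (hfk : ∀ x, f x < k)

include hfk in
theorem col_lt (a : Node f w k) : a.col < (w + 2) * k := by
  have e1 : (w + 2) * k = w * k + k + k := by ring
  have e2 : (w + 1) * k = w * k + k := by ring
  cases a with
  | E b s x hb hs hx =>
    have := Nat.mul_le_mul_right k hb
    have := hfk x
    simp only [col]; omega
  | V b l hb hl =>
    have := Nat.mul_le_mul_right k hb
    simp only [col]; omega
  | D x =>
    have := hfk x
    simp only [col]; omega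
  | K b i hb hi =>
    have := Nat.mul_le_mul_right k hb.le
    simp only [col]; omega

include hfk in
theorem exists_col (hs : ∀ c, c < k → ∃ x, f x = c) (c : ℕ) (hc : c < (w + 2) * k) :
    ∃ a : Node f w k, a.col = c := by
  have e1 : (w + 2) * k = (w + 1) * k + k := by ring
  rw [e1] at hc
  obtain ⟨b, l, rfl, hl, hb⟩ := exists_divmod hc le_rfl
  rcases hb with hb | ⟨rfl, hl'⟩
  · exact ⟨V b l (by omega) hl, rfl⟩
  · obtain ⟨x, hx⟩ := hs l hl
    exact ⟨D x, by simp [col, hx]⟩

include hfk in
/-- Colour classes are chains. -/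
theorem class_chain (hc : ∀ x y : P, f x = f y → x ≤ y ∨ y ≤ x) (p q : Node f w k)
    (h : p.col = q.col) : p ≤ q ∨ q ≤ p := by
  simp only [le_def]
  cases p with
  | E b s x hb hs hx =>
    cases q with
    | E b' s' x' hb' hs' hx' =>
      obtain ⟨rfl, h2⟩ := divmod_unique (hfk x) (hfk x') h
      rcases lt_trichotomy s s' with h3 | rfl | h3
      · right; simp only [le, true_and]; omega
      · rcases hc x x' h2 with h4 | h4
        · left; simp only [le]; tauto
        · right; simp only [le]; tauto
      · left; simp only [le, true_and]; omega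
    | V b' l hb' hl =>
      obtain ⟨rfl, h2⟩ := divmod_unique (hfk x) hl h
      left; simp only [le, true_and]; omega
    | D x' => left; trivial
    | K b' i hb' hi => left; trivial
  | V b l hb hl =>
    cases q with
    | E b' s' x' hb' hs' hx' =>
      obtain ⟨rfl, h2⟩ := divmod_unique hl (hfk x') h
      right; simp only [le, true_and]; omega
    | V b' l' hb' hl' =>
      obtain ⟨rfl, h2⟩ := divmod_unique hl hl' h
      left; simp only [le, true_and]; omega
    | D x' =>
      exfalso
      obtain ⟨h1, h2⟩ := divmod_unique hl (hfk x') h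
      omega
    | K b' i hb' hi =>
      obtain ⟨rfl, h2⟩ := divmod_unique hl hi h
      left; simp only [le, true_and]; omega
  | D x =>
    cases q with
    | E b' s' x' hb' hs' hx' => right; trivial
    | V b' l' hb' hl' =>
      exfalso
      obtain ⟨h1, h2⟩ := divmod_unique (hfk x) hl' h
      omega
    | D x' =>
      obtain ⟨h1, h2⟩ := divmod_unique (hfk x) (hfk x') h
      exact hc x x' h2
    | K b' i hb' hi => left; trivial
  | K b i hb hi =>
    cases q with
    | E b' s' x' hb' hs' hx' => right; trivial
    | V b' l' hb' hl' =>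
      obtain ⟨rfl, h2⟩ := divmod_unique hi hl' h
      right; simp only [le, true_and]; omega
    | D x' => right; trivial
    | K b' i' hb' hi' =>
      obtain ⟨rfl, h2⟩ := divmod_unique hi hi' h
      left; simp only [le, true_and]; omega

include hfk in
/-- The First-Fit condition. -/
theorem support (hs : ∀ c, c < k → ∃ x, f x = c)
    (hsup : ∀ x : P, ∀ c : ℕ, c < f x → ∃ y : P, f y = c ∧ ¬ x ≤ y ∧ ¬ y ≤ x)
    (p : Node f w k) (c : ℕ) (hc : c < p.col) :
    ∃ q : Node f w k, q.col = c ∧ ¬ p ≤ q ∧ ¬ q ≤ p := by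
  simp only [le_def]
  cases p with
  | E b s x hb hs' hx =>
    obtain ⟨b', l', rfl, hl', h | ⟨rfl, h⟩⟩ := exists_divmod hc (hfk x).le
    · refine ⟨V b' l' (by omega) hl', rfl, ?_, ?_⟩ <;> intro h' <;> simp only [le, true_and] at h' <;> omega
    · obtain ⟨y, hy, h1, h2⟩ := hsup x l' h
      refine ⟨E b' s y hb hs' (by omega), by simp only [col, hy], ?_, ?_⟩ <;>
        simp [le, h1, h2]
  | V b l hb hl =>
    obtain ⟨b', l', rfl, hl', h | ⟨rfl, h⟩⟩ := exists_divmod hc hl.le
    · refine ⟨K b' l' (by omega) hl', rfl, ?_, ?_⟩ <;> intro h' <;> simp only [le, true_and] at h' <;> omega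
    · obtain ⟨y, hy⟩ := hs l' hl'
      refine ⟨E b' l y hb hl (by omega), by simp only [col, hy], ?_, ?_⟩ <;> intro h' <;>
        simp only [le] at h' <;> omega
  | D x =>
    obtain ⟨b', l', rfl, hl', h | ⟨rfl, h⟩⟩ := exists_divmod hc (hfk x).le
    · refine ⟨V b' l' (by omega) hl', rfl, ?_, ?_⟩ <;> simp [le]
    · obtain ⟨y, hy, h1, h2⟩ := hsup x l' h
      exact ⟨D y, by simp only [col, hy], h1, h2⟩
  | K b i hb hi =>
    obtain ⟨b', l', rfl, hl', h | ⟨rfl, h⟩⟩ := exists_divmod hc hi.le
    · refine ⟨K b' l' (by omega) hl', rfl, ?_, ?_⟩ <;> intro h' <;> simp only [le, true_and] at h' <;> omega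
    · refine ⟨V b' l' (by omega) hl', rfl, ?_, ?_⟩ <;> intro h' <;> simp only [le, true_and] at h' <;> omega

/-- The chain partition into `w + 1` chains. -/
def chain (ch : P → Fin w) : Node f w k → Fin (w + 1)
  | E _ _ x _ _ _ => (ch x).castSucc
  | V _ _ _ _ => Fin.last w
  | D x => (ch x).castSucc
  | K b _ hb _ => (⟨b, hb⟩ : Fin w).castSucc

theorem chain_chain (ch : P → Fin w) (hch : ∀ x y, ch x = ch y → x ≤ y ∨ y ≤ x)
    (p q : Node f w k) (h : chain ch p = chain ch q) : p ≤ q ∨ q ≤ p := by
  simp only [le_def]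
  cases p with
  | E b s x hb hs hx =>
    cases q with
    | E b' s' x' hb' hs' hx' =>
      simp only [chain, Fin.castSucc_inj] at h
      rcases lt_trichotomy b b' with h1 | rfl | h1
      · left; simp only [le, true_and]; omega
      · rcases lt_trichotomy s s' with h3 | rfl | h3
        · right; simp only [le, true_and]; omega
        · rcases hch x x' h with h4 | h4
          · left; simp only [le]; tauto
          · right; simp only [le]; tauto
        · left; simp only [le, true_and]; omega
      · right; simp only [le, true_and]; omega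
    | V b' l hb' hl =>
      simp only [chain] at h
      exact absurd h (Fin.castSucc_lt_last _).ne
    | D x' => left; trivial
    | K b' i hb' hi => left; trivial
  | V b l hb hl =>
    cases q with
    | E b' s' x' hb' hs' hx' =>
      simp only [chain] at h
      exact absurd h (Fin.castSucc_lt_last _).ne'
    | V b' l' hb' hl' => simp only [le, true_and]; omega
    | D x' =>
      simp only [chain] at h
      exact absurd h (Fin.castSucc_lt_last _).ne'
    | K b' i hb' hi =>
      simp only [chain] at h
      exact absurd h (Fin.castSucc_lt_last _).ne'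
  | D x =>
    cases q with
    | E b' s' x' hb' hs' hx' => right; trivial
    | V b' l' hb' hl' =>
      simp only [chain] at h
      exact absurd h (Fin.castSucc_lt_last _).ne
    | D x' =>
      simp only [chain, Fin.castSucc_inj] at h
      exact hch x x' h
    | K b' i hb' hi => left; trivial
  | K b i hb hi =>
    cases q with
    | E b' s' x' hb' hs' hx' => right; trivial
    | V b' l' hb' hl' =>
      simp only [chain] at h
      exact absurd h (Fin.castSucc_lt_last _).ne
    | D x' => right; trivial
    | K b' i' hb' hi' =>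
      simp only [chain, Fin.castSucc_inj, Fin.mk.injEq] at h
      simp only [le, true_and]; omega

/-- The homogeneous block containing a point (`none` for the points of `V` and `K`). -/
def tag : Node f w k → Option (ℕ × ℕ)
  | E b s _ _ _ _ => some (b + 1, s)
  | V _ _ _ _ => none
  | D _ => some (0, 0)
  | K _ _ _ _ => none

/-- Is the point in `V`? -/
def isV : Node f w k → Prop
  | E _ _ _ _ _ _ => False
  | V _ _ _ _ => True
  | D _ => False
  | K _ _ _ _ => False

theorem uniform (x y z : Node f w k) (t : ℕ × ℕ) (hx : tag x = some t) (hy : tag y = some t)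
    (hz : tag z ≠ some t) : (z ≤ x ↔ z ≤ y) ∧ (x ≤ z ↔ y ≤ z) := by
  obtain ⟨t1, t2⟩ := t
  simp only [le_def]
  cases x <;> cases y <;> cases z <;>
    simp only [tag, Option.some.injEq, Prod.mk.injEq, reduceCtorEq, ne_eq, not_false_eq_true,
      not_and, le] at hx hy hz ⊢ <;> (try trivial) <;> (try omega)
  all_goals
    constructor <;> constructor <;> intro h <;> rcases h with h | h | h <;> omega

theorem tag_D (x : Node f w k) (h : tag x = some (0, 0)) : ∃ y, x = D y := by
  cases x <;> simp [tag] at h ⊢

theorem tag_E (x : Node f w k) (b s : ℕ) (h : tag x = some (b + 1, s)) :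
    ∃ y hb hs hx, x = E b s y hb hs hx := by
  cases x <;> simp only [tag, Option.some.injEq, Prod.mk.injEq, reduceCtorEq] at h
  · obtain ⟨h1, rfl⟩ := h
    obtain rfl := Nat.succ_injective h1
    exact ⟨_, _, _, _, rfl⟩
  · simp at h

/-- If a copy of `R8` lies in one block then `R8` embeds in the smaller poset. -/
theorem embed_of_tag (h : IsEmpty (R8 ↪o P)) (e : R8 ↪o Node f w k) (t : ℕ × ℕ)
    (ht : ∀ q, tag (e q) = some t) : False := by
  obtain ⟨t1, t2⟩ := t
  cases t1 with
  | zero =>
    cases t2 with
    | zero =>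
      choose g hg using fun q => tag_D (e q) (ht q)
      exact h.elim (OrderEmbedding.ofMapLEIff g (fun a b => by
        rw [← e.le_iff_le, hg a, hg b]; rfl))
    | succ n =>
      have := ht ⟨0⟩
      cases hq : e ⟨0⟩ <;> rw [hq] at this <;> simp [tag] at this
  | succ b =>
    choose g hb hs hx hg using fun q => tag_E (e q) b t2 (ht q)
    exact h.elim (OrderEmbedding.ofMapLEIff g (fun a b' => by
      rw [← e.le_iff_le, hg a, hg b']
      simp only [le_def, le]
      simp))

theorem no_embed (h : IsEmpty (R8 ↪o P)) : IsEmpty (R8 ↪o Node f w k) := by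
  constructor
  intro e
  -- the eight points
  have hle : ∀ (i j : ℕ) (hi : i < 8) (hj : j < 8), e ⟨⟨i, hi⟩⟩ ≤ e ⟨⟨j, hj⟩⟩ ↔
      (i = j ∨ i + 2 ≤ j) := by
    intro i j hi hj
    rw [e.le_iff_le, R8.le_iff]
    simp
  obtain ⟨v, hv⟩ : ∃ v : ℕ → Node f w k, ∀ (i : ℕ) (hi : i < 8), v i = e ⟨⟨i, hi⟩⟩ :=
    ⟨fun i => if hi : i < 8 then e ⟨⟨i, hi⟩⟩ else e ⟨0⟩, fun i hi => by simp [hi]⟩
  have hle' : ∀ (i j : ℕ), i < 8 → j < 8 → (v i ≤ v j ↔ (i = j ∨ i + 2 ≤ j)) := by
    intro i j hi hj
    rw [hv i hi, hv j hj, hle]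
  -- (A)
  have hA : ∀ m, m ≤ 4 → ∀ b i hb hi, v m ≠ K b i hb hi := by
    intro m hm b i hb hi hK
    have h2 : v m ≤ v (m + 2) := (hle' _ _ (by omega) (by omega)).2 (by omega)
    have h3 : v m ≤ v (m + 3) := (hle' _ _ (by omega) (by omega)).2 (by omega)
    have h4 : ¬ v (m + 2) ≤ v (m + 3) := fun h' => by
      have := (hle' _ _ (by omega) (by omega)).1 h'
      omega
    have h5 : ¬ v (m + 3) ≤ v (m + 2) := fun h' => by
      have := (hle' _ _ (by omega) (by omega)).1 h'
      omega
    rw [hK] at h2 h3
    generalize v (m + 2) = x at *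
    generalize v (m + 3) = y at *
    simp only [le_def] at h2 h3 h4 h5
    cases x <;> cases y <;> simp only [le] at h2 h3 h4 h5
    omega
  -- (B)
  have hB : ∀ i, i + 1 < 8 → ∀ t, tag (v i) = some t → tag (v (i + 1)) = some t → False := by
    intro i hi t h1 h2
    have hup : ∀ n, i + n + 1 < 8 → tag (v (i + n)) = some t ∧ tag (v (i + n + 1)) = some t := by
      intro n
      induction n with
      | zero => intro _; exact ⟨h1, h2⟩
      | succ n ih =>
        intro hn
        obtain ⟨h3, h4⟩ := ih (by omega)
        refine ⟨h4, ?_⟩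
        by_contra h5
        have h6 := (uniform _ _ _ t h3 h4 h5).2
        have h7 := h6.1 ((hle' _ _ (by omega) (by omega)).2 (by omega))
        have h8 := (hle' _ _ (by omega) (by omega)).1 h7
        omega
    have hdown : ∀ n, n ≤ i → tag (v (i - n)) = some t ∧ tag (v (i - n + 1)) = some t := by
      intro n
      induction n with
      | zero => intro _; exact ⟨h1, h2⟩
      | succ n ih =>
        intro hn
        obtain ⟨h3, h4⟩ := ih (by omega)
        have e1 : i - (n + 1) + 1 = i - n := by omega
        rw [e1]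
        refine ⟨?_, h3⟩
        by_contra h5
        have h6 := (uniform _ _ _ t h3 h4 h5).1
        have h7 := h6.2 ((hle' _ _ (by omega) (by omega)).2 (by omega))
        have h8 := (hle' _ _ (by omega) (by omega)).1 h7
        omega
    apply embed_of_tag h e t
    rintro ⟨⟨q, hq⟩⟩
    rw [← hv q hq]
    rcases le_total i q with h3 | h3
    · rcases Nat.eq_or_lt_of_le h3 with h3 | h3
      · rw [← h3]; exact h1
      · have := (hup (q - i - 1) (by omega)).2
        rwa [show i + (q - i - 1) + 1 = q by omega] at this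
    · have := (hdown (i - q) (by omega)).1
      rwa [show i - (i - q) = q by omega] at this
  -- (C)
  have hC : ∀ i, i + 1 ≤ 4 → ((v i).isV ∧ ¬ (v (i + 1)).isV) ∨ (¬ (v i).isV ∧ (v (i + 1)).isV) := by
    intro i hi
    have n1 : ¬ v i ≤ v (i + 1) := fun h' => by
      have := (hle' _ _ (by omega) (by omega)).1 h'
      omega
    have n2 : ¬ v (i + 1) ≤ v i := fun h' => by
      have := (hle' _ _ (by omega) (by omega)).1 h'
      omega
    have hK1 := hA i (by omega)
    have hK2 := hA (i + 1) (by omega)
    have hB' := hB i (by omega)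
    generalize v i = x at *
    generalize v (i + 1) = y at *
    simp only [le_def] at n1 n2
    cases x with
    | K b i hb hi => exact absurd rfl (hK1 b i hb hi)
    | V b l hb hl =>
      cases y with
      | K b i hb hi => exact absurd rfl (hK2 b i hb hi)
      | V b' l' hb' hl' => exfalso; simp only [le] at n1 n2; omega
      | E b' s' x' hb' hs' hx' => exact Or.inl ⟨trivial, not_false⟩
      | D x' => exact Or.inl ⟨trivial, not_false⟩
    | E b s x hb hs hx =>
      cases y with
      | K b i hb hi => exact absurd rfl (hK2 b i hb hi)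
      | V b' l' hb' hl' => exact Or.inr ⟨not_false, trivial⟩
      | E b' s' x' hb' hs' hx' =>
        exfalso
        simp only [le] at n1 n2
        have e1 : b = b' := by omega
        subst e1
        have e2 : s = s' := by omega
        subst e2
        exact hB' (b + 1, s) rfl rfl
      | D x' => exact absurd trivial n1
    | D x =>
      cases y with
      | K b i hb hi => exact absurd rfl (hK2 b i hb hi)
      | V b' l' hb' hl' => exact Or.inr ⟨not_false, trivial⟩
      | E b' s' x' hb' hs' hx' => exact absurd trivial n2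
      | D x' => exact (hB' (0, 0) rfl rfl).elim
  -- no `V`-point lies below a point that is neither in `V` nor in `K`
  have hD : ∀ i, i + 3 ≤ 4 → (v i).isV → (v (i + 3)).isV := by
    intro i hi h1
    have h3 : v i ≤ v (i + 3) := (hle' _ _ (by omega) (by omega)).2 (by omega)
    have hK := hA (i + 3) (by omega)
    generalize v i = x at *
    generalize v (i + 3) = y at *
    cases x with
    | K b i hb hi => exact h1.elim
    | E b s x hb hs hx => exact h1.elim
    | D x => exact h1.elim
    | V b l hb hl =>
      cases y with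
      | K b i hb hi => exact absurd rfl (hK b i hb hi)
      | V b' l' hb' hl' => trivial
      | E b' s' x' hb' hs' hx' => exact h3
      | D x' => exact h3
  have c0 : ((v 0).isV ∧ ¬ (v 1).isV) ∨ (¬ (v 0).isV ∧ (v 1).isV) := hC 0 (by omega)
  have c1 : ((v 1).isV ∧ ¬ (v 2).isV) ∨ (¬ (v 1).isV ∧ (v 2).isV) := hC 1 (by omega)
  have c2 : ((v 2).isV ∧ ¬ (v 3).isV) ∨ (¬ (v 2).isV ∧ (v 3).isV) := hC 2 (by omega)
  have c3 : ((v 3).isV ∧ ¬ (v 4).isV) ∨ (¬ (v 3).isV ∧ (v 4).isV) := hC 3 (by omega)
  have d0 : (v 0).isV → (v 3).isV := hD 0 (by omega)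
  have d1 : (v 1).isV → (v 4).isV := hD 1 (by omega)
  clear hC hD hA hB hle' hle hv
  generalize (v 0).isV = a0 at *
  generalize (v 1).isV = a1 at *
  generalize (v 2).isV = a2 at *
  generalize (v 3).isV = a3 at *
  generalize (v 4).isV = a4 at *
  tauto

end Node

end node

end Pool.Agent.helper44.FirstFit
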